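import Pool.Agent.W600.Opp.Core

/-!
# Integral intersection theorem and level sets

Tools for the parity theorem on integral base polyhedra.
-/

set_option autoImplicit false

namespace Pool.Agent.J4H28.Par

open Finset Pool.Agent.W600.Opp

section inter
variable {V : Type*} [DecidableEq V]

/-- The reduced function after fixing the coordinate `e` to the value `t`. -/
def red (f : Finset V → ℤ) (e : V) (t : ℤ) (X : Finset V) : ℤ :=
  min (f X) (f (insert e X) - t)

theorem red_le_left (f : Finset V → ℤ) (e : V) (t : ℤ) (X : Finset V) : red f e t X ≤ f X :=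
  min_le_left _ _

theorem red_le_right (f : Finset V → ℤ) (e : V) (t : ℤ) (X : Finset V) :
    red f e t X ≤ f (insert e X) - t := min_le_right _ _

theorem sub_red {f : Finset V → ℤ} {e : V} {W : Finset V} (he : e ∉ W)
    (hf : Sub (insert e W) f) (t : ℤ) : Sub W (red f e t) := by
  intro X Y hX hY
  have hXi : X ⊆ insert e W := hX.trans (subset_insert e W)
  have hYi : Y ⊆ insert e W := hY.trans (subset_insert e W)
  have hX' : insert e X ⊆ insert e W := insert_subset_insert e hX
  have hY' : insert e Y ⊆ insert e W := insert_subset_insert e hY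
  have heX : e ∉ X := fun h => he (hX h)
  have heY : e ∉ Y := fun h => he (hY h)
  have a1 := hf X Y hXi hYi
  have a2 := hf X (insert e Y) hXi hY'
  have a3 := hf (insert e X) Y hX' hYi
  have a4 := hf (insert e X) (insert e Y) hX' hY'
  have e1 : X ∩ insert e Y = X ∩ Y := by
    ext i; simp only [mem_inter, mem_insert]
    constructor
    · rintro ⟨h, rfl | h'⟩
      · exact absurd h heX
      · exact ⟨h, h'⟩
    · rintro ⟨h, h'⟩; exact ⟨h, Or.inr h'⟩
  have e2 : X ∪ insert e Y = insert e (X ∪ Y) := by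
    ext i; simp only [mem_union, mem_insert]; tauto
  have e3 : insert e X ∩ Y = X ∩ Y := by
    ext i; simp only [mem_inter, mem_insert]
    constructor
    · rintro ⟨rfl | h, h'⟩
      · exact absurd h' heY
      · exact ⟨h, h'⟩
    · rintro ⟨h, h'⟩; exact ⟨Or.inr h, h'⟩
  have e4 : insert e X ∪ Y = insert e (X ∪ Y) := by
    ext i; simp only [mem_union, mem_insert]; tauto
  have e5 : insert e X ∩ insert e Y = insert e (X ∩ Y) := by
    ext i; simp only [mem_inter, mem_insert]; tauto
  have e6 : insert e X ∪ insert e Y = insert e (X ∪ Y) := by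
    ext i; simp only [mem_union, mem_insert]; tauto
  rw [e1, e2] at a2
  rw [e3, e4] at a3
  rw [e5, e6] at a4
  simp only [red]
  rcases min_choice (f X) (f (insert e X) - t) with h1 | h1 <;>
    rcases min_choice (f Y) (f (insert e Y) - t) with h2 | h2 <;>
    rw [h1, h2] <;>
    have b1 := min_le_left (f (X ∩ Y)) (f (insert e (X ∩ Y)) - t) <;>
    have b2 := min_le_right (f (X ∩ Y)) (f (insert e (X ∩ Y)) - t) <;>
    have b3 := min_le_left (f (X ∪ Y)) (f (insert e (X ∪ Y)) - t) <;>
    have b4 := min_le_right (f (X ∪ Y)) (f (insert e (X ∪ Y)) - t) <;>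
    linarith

/-- Integral intersection theorem for two base polyhedra. -/
theorem inter (W : Finset V) : ∀ (f1 f2 : Finset V → ℤ) (T : ℤ), Sub W f1 → Sub W f2 →
    f1 ∅ = 0 → f2 ∅ = 0 → f1 W = T → f2 W = T →
    (∀ X, X ⊆ W → T ≤ f1 X + f2 (W \ X)) →
    ∃ x : V → ℤ, (∀ X, X ⊆ W → ∑ i ∈ X, x i ≤ f1 X ∧ ∑ i ∈ X, x i ≤ f2 X) ∧
      ∑ i ∈ W, x i = T := by
  induction W using Finset.induction_on with
  | empty =>
    intro f1 f2 T _ _ h1 h2 h3 _ _
    refine ⟨fun _ => 0, ?_, by rw [← h3, h1]; simp⟩
    intro X hX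
    rw [Finset.subset_empty.mp hX, h1, h2]; simp
  | insert e W he ih =>
    intro f1 f2 T hs1 hs2 h1 h2 h3 h4 hc
    obtain ⟨X0, hX0, hmax⟩ := exists_max_image W.powerset
      (fun X => T - f1 X - f2 (W \ X)) ⟨∅, by simp⟩
    rw [mem_powerset] at hX0
    set t := T - f1 X0 - f2 (W \ X0) with ht
    have low : ∀ X, X ⊆ W → T - f1 X - f2 (W \ X) ≤ t := fun X hX =>
      hmax X (mem_powerset.mpr hX)
    have heW : ∀ X, X ⊆ W → e ∉ X := fun X hX h => he (hX h)
    have up : ∀ Y, Y ⊆ W → t ≤ f1 (insert e Y) + f2 (insert e (W \ Y)) - T := by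
      intro Y hY
      have s1 := hs1 X0 (insert e Y) (hX0.trans (subset_insert e W)) (insert_subset_insert e hY)
      have s2 := hs2 (W \ X0) (insert e (W \ Y)) (sdiff_subset.trans (subset_insert e W))
        (insert_subset_insert e sdiff_subset)
      have c1 := hc (X0 ∩ Y) ((inter_subset_right.trans hY).trans (subset_insert e W))
      have c2 := hc (insert e (X0 ∪ Y)) (insert_subset_insert e (union_subset hX0 hY))
      have e1 : X0 ∩ insert e Y = X0 ∩ Y := by
        ext i; simp only [mem_inter, mem_insert]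
        constructor
        · rintro ⟨h, rfl | h'⟩
          · exact absurd h (heW _ hX0)
          · exact ⟨h, h'⟩
        · rintro ⟨h, h'⟩; exact ⟨h, Or.inr h'⟩
      have e2 : X0 ∪ insert e Y = insert e (X0 ∪ Y) := by
        ext i; simp only [mem_union, mem_insert]; tauto
      have e3 : (W \ X0) ∩ insert e (W \ Y) = insert e W \ insert e (X0 ∪ Y) := by
        ext i; simp only [mem_inter, mem_insert, mem_sdiff, mem_union]
        constructor
        · rintro ⟨⟨h, h'⟩, rfl | h''⟩
          · exact absurd h he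
          · exact ⟨Or.inr h, fun hh => hh.elim (fun q => he (q ▸ h))
              (fun q => q.elim h' h''.2)⟩
        · rintro ⟨h, h'⟩
          have h5 : i ≠ e := fun q => h' (Or.inl q)
          have h6 : i ∈ W := h.resolve_left h5
          exact ⟨⟨h6, fun q => h' (Or.inr (Or.inl q))⟩,
            Or.inr ⟨h6, fun q => h' (Or.inr (Or.inr q))⟩⟩
      have e4 : (W \ X0) ∪ insert e (W \ Y) = insert e W \ (X0 ∩ Y) := by
        ext i; simp only [mem_inter, mem_insert, mem_sdiff, mem_union]
        constructor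
        · rintro (⟨h, h'⟩ | rfl | ⟨h, h'⟩)
          · exact ⟨Or.inr h, fun q => h' q.1⟩
          · exact ⟨Or.inl rfl, fun q => heW _ hX0 q.1⟩
          · exact ⟨Or.inr h, fun q => h' q.2⟩
        · rintro ⟨rfl | h, h'⟩
          · exact Or.inr (Or.inl rfl)
          · by_cases hx : i ∈ X0
            · exact Or.inr (Or.inr ⟨h, fun q => h' ⟨hx, q⟩⟩)
            · exact Or.inl ⟨h, hx⟩
      rw [e1, e2] at s1
      rw [e3, e4] at s2
      linarith
    have d1 : insert e W \ ∅ = insert e W := by simp
    have l0 := low ∅ (empty_subset W)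
    have lW := low W (Subset.refl W)
    have u0 := up ∅ (empty_subset W)
    have uW := up W (Subset.refl W)
    rw [sdiff_empty] at l0 u0
    rw [Finset.sdiff_self] at lW uW
    obtain ⟨x, hx1, hx2⟩ := ih (red f1 e t) (red f2 e t) (T - t)
      (sub_red he hs1 t) (sub_red he hs2 t)
      (by simp only [red]; rw [h1]; apply min_eq_left; linarith)
      (by simp only [red]; rw [h2]; apply min_eq_left; linarith)
      (by simp only [red]; rw [h3]; apply min_eq_right; linarith)
      (by simp only [red]; rw [h4]; apply min_eq_right; linarith)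
      (by
        intro X hX
        have q1 := low X hX
        have q2 := up X hX
        have q3 := hc X (hX.trans (subset_insert e W))
        have q4 := hc (insert e X) (insert_subset_insert e hX)
        have e1 : insert e W \ X = insert e (W \ X) := by
          ext i; simp only [mem_insert, mem_sdiff]
          constructor
          · rintro ⟨rfl | h, h'⟩
            · exact Or.inl rfl
            · exact Or.inr ⟨h, h'⟩
          · rintro (rfl | ⟨h, h'⟩)
            · exact ⟨Or.inl rfl, heW _ hX⟩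
            · exact ⟨Or.inr h, h'⟩
        have e2 : insert e W \ insert e X = W \ X := by
          ext i; simp only [mem_insert, mem_sdiff]
          constructor
          · rintro ⟨h, h'⟩
            exact ⟨h.resolve_left (fun q => h' (Or.inl q)), fun q => h' (Or.inr q)⟩
          · rintro ⟨h, h'⟩
            exact ⟨Or.inr h, fun q => q.elim (fun r => he (r ▸ h)) h'⟩
        rw [e1] at q3
        rw [e2] at q4
        simp only [red]
        rcases min_choice (f1 X) (f1 (insert e X) - t) with g1 | g1 <;>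
          rcases min_choice (f2 (W \ X)) (f2 (insert e (W \ X)) - t) with g2 | g2 <;>
          rw [g1, g2] <;> linarith)
    have off : ∀ X : Finset V, e ∉ X →
        ∑ i ∈ X, (Function.update x e t) i = ∑ i ∈ X, x i := by
      intro X hX
      apply Finset.sum_congr rfl
      intro i hi
      rw [Function.update_of_ne (show i ≠ e from fun q => hX (q ▸ hi))]
    refine ⟨Function.update x e t, ?_, ?_⟩
    · intro X hX
      by_cases heX : e ∈ X
      · have hXe : X.erase e ⊆ W := by
          intro j hj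
          rw [mem_erase] at hj
          exact (mem_insert.mp (hX hj.2)).resolve_left hj.1
        have e0 : insert e (X.erase e) = X := insert_erase heX
        have r1 := red_le_right f1 e t (X.erase e)
        have r2 := red_le_right f2 e t (X.erase e)
        have r3 := hx1 _ hXe
        rw [e0] at r1 r2
        rw [← e0, sum_insert (notMem_erase e X), off _ (notMem_erase e X), Function.update_self,
          e0]
        constructor <;> linarith [r3.1, r3.2]
      · have hXW : X ⊆ W := fun j hj =>
          (mem_insert.mp (hX hj)).resolve_left (fun q => heX (q ▸ hj))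
        rw [off X heX]
        have r3 := hx1 _ hXW
        exact ⟨r3.1.trans (red_le_left _ _ _ _), r3.2.trans (red_le_left _ _ _ _)⟩
    · rw [sum_insert he, off W he, hx2, Function.update_self]; ring

end inter

section levels
variable {V : Type*} [Fintype V] [DecidableEq V]

/-- The level set `{i : k ≤ w i}`. -/
def L (w : V → ℕ) (k : ℕ) : Finset V := univ.filter (fun i => k ≤ w i)

theorem mem_L {w : V → ℕ} {k : ℕ} {i : V} : i ∈ L w k ↔ k ≤ w i := by simp [L]

theorem L_zero (w : V → ℕ) : L w 0 = univ := by ext i; simp [mem_L]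

theorem L_anti (w : V → ℕ) {j k : ℕ} (h : j ≤ k) : L w k ⊆ L w j := by
  intro i hi; rw [mem_L] at hi ⊢; omega

theorem L_empty {w : V → ℕ} {N k : ℕ} (hw : ∀ i, w i ≤ N) (hk : N < k) : L w k = ∅ := by
  ext i; simp only [mem_L, notMem_empty, iff_false]; have := hw i; omega

/-- The submodular function of the face in direction `w`. -/
def D (f : Finset V → ℤ) (w : V → ℕ) (M : ℕ) (A : Finset V) : ℤ :=
  ∑ k ∈ range M, (f (L w (k + 1) ∪ (A ∩ L w k)) - f (L w (k + 1)))

/-- The value of the Lovasz extension. -/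
def H (f : Finset V → ℤ) (w : V → ℕ) (M : ℕ) : ℤ := ∑ k ∈ range M, f (L w (k + 1))

variable {f : Finset V → ℤ}

theorem D_le (hf : Sub univ f) (h0 : f ∅ = 0) {w : V → ℕ} {N M : ℕ} (hw : ∀ i, w i ≤ N)
    (hM : N < M) (A : Finset V) : D f w M A ≤ f A := by
  have h1 : D f w M A ≤ ∑ k ∈ range M, (f (A ∩ L w k) - f (A ∩ L w (k + 1))) := by
    apply sum_le_sum
    intro k _
    have := hf (L w (k + 1)) (A ∩ L w k) (subset_univ _) (subset_univ _)
    have e : L w (k + 1) ∩ (A ∩ L w k) = A ∩ L w (k + 1) := by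
      ext i; simp only [mem_inter, mem_L]
      constructor
      · rintro ⟨a, b, c⟩; exact ⟨b, a⟩
      · rintro ⟨a, b⟩; exact ⟨b, a, by omega⟩
    rw [e] at this
    linarith
  rw [sum_range_sub'] at h1
  rw [L_zero, L_empty hw hM] at h1
  simpa [h0] using h1

theorem D_empty (f : Finset V → ℤ) (w : V → ℕ) (M : ℕ) : D f w M ∅ = 0 := by
  simp [D]

theorem D_sub (hf : Sub univ f) (w : V → ℕ) (M : ℕ) : Sub univ (D f w M) := by
  intro X Y _ _
  simp only [D]
  rw [← sum_add_distrib, ← sum_add_distrib]
  apply sum_le_sum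
  intro k _
  have := hf (L w (k + 1) ∪ (X ∩ L w k)) (L w (k + 1) ∪ (Y ∩ L w k)) (subset_univ _)
    (subset_univ _)
  have e1 : (L w (k + 1) ∪ (X ∩ L w k)) ∩ (L w (k + 1) ∪ (Y ∩ L w k)) =
      L w (k + 1) ∪ ((X ∩ Y) ∩ L w k) := by
    ext i; simp only [mem_inter, mem_union]; tauto
  have e2 : (L w (k + 1) ∪ (X ∩ L w k)) ∪ (L w (k + 1) ∪ (Y ∩ L w k)) =
      L w (k + 1) ∪ ((X ∪ Y) ∩ L w k) := by
    ext i; simp only [mem_inter, mem_union]; tauto
  rw [e1, e2] at this
  linarith

theorem D_univ_sdiff (h0 : f ∅ = 0) {w : V → ℕ} {N M : ℕ} (hw : ∀ i, w i ≤ N)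
    (hM : N < M) (j : ℕ) : D f w M (univ \ L w j) = f univ - f (L w j) := by
  have h1 : D f w M (univ \ L w j) =
      ∑ k ∈ range M, (f (L w (min k j)) - f (L w (min (k + 1) j))) := by
    apply sum_congr rfl
    intro k _
    rcases lt_or_ge k j with h | h
    · have e : L w (k + 1) ∪ ((univ \ L w j) ∩ L w k) = L w k := by
        ext i; simp only [mem_inter, mem_union, mem_sdiff, mem_univ, true_and, mem_L]; omega
      rw [e, min_eq_left h.le, min_eq_left (by omega)]
    · have e : L w (k + 1) ∪ ((univ \ L w j) ∩ L w k) = L w (k + 1) := by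
        ext i; simp only [mem_inter, mem_union, mem_sdiff, mem_univ, true_and, mem_L]; omega
      rw [e, min_eq_right h, min_eq_right (by omega)]
      ring
  rw [h1, sum_range_sub']
  simp only [Nat.zero_min, L_zero]
  rcases le_total M j with h | h
  · rw [min_eq_left h, L_empty hw hM, L_empty hw (lt_of_lt_of_le hM h)]
  · rw [min_eq_right h]

theorem D_univ (h0 : f ∅ = 0) {w : V → ℕ} {N M : ℕ} (hw : ∀ i, w i ≤ N)
    (hM : N < M) : D f w M univ = f univ := by
  have := D_univ_sdiff (f := f) h0 hw hM (N + 1)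
  rw [L_empty hw (Nat.lt_succ_self N), sdiff_empty, h0, sub_zero] at this
  exact this

/-- adding `1` on `A` -/
def bump (w : V → ℕ) (A : Finset V) : V → ℕ := fun i => w i + if i ∈ A then 1 else 0

theorem L_bump (w : V → ℕ) (A : Finset V) (k : ℕ) :
    L (bump w A) (k + 1) = L w (k + 1) ∪ (A ∩ L w k) := by
  ext i
  simp only [mem_L, mem_union, mem_inter, bump]
  by_cases h : i ∈ A
  · simp only [h, if_true, true_and]; omega
  · simp only [h, if_false, false_and, or_false]; omega

theorem H_bump (w : V → ℕ) (A : Finset V) (M : ℕ) :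
    H f (bump w A) M = H f w M + D f w M A := by
  simp only [H, D, L_bump]
  rw [← sum_add_distrib]
  apply sum_congr rfl
  intro k _; ring

theorem bump_le {w : V → ℕ} {N : ℕ} (hw : ∀ i, w i ≤ N) (A : Finset V) (i : V) :
    bump w A i ≤ N + 1 := by
  have := hw i
  simp only [bump]; split_ifs <;> omega

theorem H_mono (h0 : f ∅ = 0) {w : V → ℕ} {N : ℕ} (hw : ∀ i, w i ≤ N) {M M' : ℕ}
    (hM : N ≤ M) (hM' : M ≤ M') : H f w M' = H f w M := by
  simp only [H]
  obtain ⟨d, rfl⟩ := Nat.exists_eq_add_of_le hM'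
  rw [sum_range_add]
  have : ∑ x ∈ range d, f (L w (M + x + 1)) = 0 := by
    apply sum_eq_zero
    intro x _
    rw [L_empty hw (by omega), h0]
  rw [this, add_zero]

theorem H_bump_two (hf : Sub univ f) (h0 : f ∅ = 0) {w : V → ℕ} {N : ℕ} (hw : ∀ i, w i ≤ N)
    (A : Finset V) : H f (bump (bump w A) A) (N + 2) ≤ H f w N + D f w (N + 2) A + f A := by
  rw [H_bump, H_bump, H_mono h0 hw (le_refl N) (by omega : N ≤ N + 2)]
  have := D_le hf h0 (bump_le hw A) (by omega : N + 1 < N + 2) A
  linarith

/-- A point of the face in direction `w`. -/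
theorem exists_face (hf : Sub univ f) (h0 : f ∅ = 0) (h1 : f univ = 0) {w : V → ℕ} {N : ℕ}
    (hw : ∀ i, w i ≤ N) : ∃ x : V → ℤ, (∀ X, ∑ i ∈ X, x i ≤ f X) ∧ ∑ i, x i = 0 ∧
      ∀ j, ∑ i ∈ L w j, x i = f (L w j) := by
  have hM : N < N + 2 := by omega
  obtain ⟨x, hx1, hx2⟩ := inter univ (D f w (N + 2)) (D f w (N + 2)) 0 (D_sub hf w _)
    (D_sub hf w _) (D_empty f w _) (D_empty f w _)
    (by rw [D_univ h0 hw hM, h1]) (by rw [D_univ h0 hw hM, h1])
    (by
      intro X _
      have := D_sub hf w (N + 2) X (univ \ X) (subset_univ _) (subset_univ _)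
      rw [inter_sdiff_self, union_sdiff_of_subset (subset_univ X), D_empty,
        D_univ h0 hw hM, h1] at this
      linarith)
  have hle : ∀ X, ∑ i ∈ X, x i ≤ f X := fun X =>
    (hx1 X (subset_univ X)).1.trans (D_le hf h0 hw hM X)
  refine ⟨x, hle, hx2, ?_⟩
  intro j
  apply le_antisymm (hle _)
  have a := (hx1 (univ \ L w j) (subset_univ _)).1
  rw [D_univ_sdiff h0 hw hM j, h1] at a
  have b := sum_sdiff (f := x) (subset_univ (L w j))
  rw [hx2] at b
  linarith

/-- **Parity lemma**: if `w` cannot be improved by adding `2` on a set, then the face in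
direction `w` contains an integral `x` with `-x` in the base polyhedron. -/
theorem parity (hf : Sub univ f) (h0 : f ∅ = 0) (h1 : f univ = 0) {w : V → ℕ} {N : ℕ}
    (hw : ∀ i, w i ≤ N)
    (hmin : ∀ A, H f w N ≤ H f (bump (bump w A) A) (N + 2)) :
    ∃ x : V → ℤ, (∀ X, ∑ i ∈ X, x i ≤ f X ∧ - ∑ i ∈ X, x i ≤ f X) ∧ ∑ i, x i = 0 ∧
      ∀ j, ∑ i ∈ L w j, x i = f (L w j) := by
  have hM : N < N + 2 := by omega
  obtain ⟨x, hx1, hx2⟩ := inter univ (D f w (N + 2)) (fun X => f (univ \ X)) 0 (D_sub hf w _)
    (by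
      intro X Y _ _
      have := hf (univ \ X) (univ \ Y) (subset_univ _) (subset_univ _)
      have e1 : (univ \ X) ∩ (univ \ Y) = univ \ (X ∪ Y) := by
        ext i; simp only [mem_inter, mem_sdiff, mem_univ, true_and, mem_union]; tauto
      have e2 : (univ \ X) ∪ (univ \ Y) = univ \ (X ∩ Y) := by
        ext i; simp only [mem_inter, mem_sdiff, mem_univ, true_and, mem_union]; tauto
      rw [e1, e2] at this
      show f (univ \ (X ∩ Y)) + f (univ \ (X ∪ Y)) ≤ f (univ \ X) + f (univ \ Y)
      linarith) (D_empty f w _)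
    (by simpa using h1)
    (by rw [D_univ h0 hw hM, h1])
    (by simpa using h0)
    (by
      intro X _
      have a := hmin X
      have b := H_bump_two hf h0 hw X
      show 0 ≤ D f w (N + 2) X + f (univ \ (univ \ X))
      rw [Finset.sdiff_sdiff_eq_self (subset_univ X)]
      linarith)
  have hle : ∀ X, ∑ i ∈ X, x i ≤ f X := fun X =>
    (hx1 X (subset_univ X)).1.trans (D_le hf h0 hw hM X)
  refine ⟨x, ?_, hx2, ?_⟩
  · intro X
    refine ⟨hle X, ?_⟩
    have a : ∑ i ∈ univ \ X, x i ≤ f (univ \ (univ \ X)) :=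
      (hx1 (univ \ X) (subset_univ _)).2
    rw [Finset.sdiff_sdiff_eq_self (subset_univ X)] at a
    have b := sum_sdiff (f := x) (subset_univ X)
    rw [hx2] at b
    linarith
  · intro j
    apply le_antisymm (hle _)
    have a := (hx1 (univ \ L w j) (subset_univ _)).1
    rw [D_univ_sdiff h0 hw hM j, h1] at a
    have b := sum_sdiff (f := x) (subset_univ (L w j))
    rw [hx2] at b
    linarith

/-- layer cake formula -/
theorem sum_mul_eq {R : Type*} [CommRing R] (x : V → R) {w : V → ℕ} {N : ℕ} (hw : ∀ i, w i ≤ N) :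
    ∑ i, (w i : R) * x i = ∑ k ∈ range N, ∑ i ∈ L w (k + 1), x i := by
  have h1 : ∀ k, ∑ i ∈ L w (k + 1), x i = ∑ i, (if k + 1 ≤ w i then x i else 0) := by
    intro k; rw [L, sum_filter]
  simp only [h1]
  rw [sum_comm]
  apply sum_congr rfl
  intro i _
  rw [← sum_filter]
  have h2 : (range N).filter (fun k => k + 1 ≤ w i) = range (w i) := by
    ext k; simp only [mem_filter, mem_range]; have := hw i; omega
  rw [h2, sum_const, card_range, nsmul_eq_mul]

end levels

end Pool.Agent.J4H28.Par
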