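import Pool.Agent.W600.Opp.Lift

/-!
# Support function and exchanges of a g-polymatroid
-/

set_option autoImplicit false

namespace Pool.Agent.J4H28.Par

variable {S : Type*} [Fintype S] [DecidableEq S]

/-- An integer vector as a real vector. -/
def pt (x : S → ℤ) : S → ℝ := fun i => (x i : ℝ)

/-- The support function of `Q` at the integer vector `w`: the supremum of `w · y`, `y ∈ Q`. -/
noncomputable def supp (Q : Set (S → ℝ)) (w : S → ℤ) : ℝ :=
  sSup ((fun y : S → ℝ => ∑ i, (w i : ℝ) * y i) '' Q)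

/-- `w` is shortest in its class modulo `2`: no vector `w + 2 u` has a smaller support value. -/
def Shortest (Q : Set (S → ℝ)) (w : S → ℤ) : Prop :=
  ∀ u : S → ℤ, supp Q w ≤ supp Q (fun i => w i + 2 * u i)

/-- `x + e_i - e_j` and `x - e_i + e_j` are both in `Q`. -/
def Swap (Q : Set (S → ℝ)) (x : S → ℝ) (i j : S) : Prop :=
  x + Pi.single i 1 - Pi.single j 1 ∈ Q ∧ x - Pi.single i 1 + Pi.single j 1 ∈ Q

/-- `x + e_i` and `x - e_i` are both in `Q`. -/
def Free (Q : Set (S → ℝ)) (x : S → ℝ) (i : S) : Prop :=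
  x + Pi.single i 1 ∈ Q ∧ x - Pi.single i 1 ∈ Q

end Pool.Agent.J4H28.Par
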