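import Pool.Agent.J4H28.Par.Core
import Pool.Agent.J4H28.Par.Defs

set_option autoImplicit false

namespace Pool.Agent.J4H28.Par

open Finset Pool.Agent.W600.Opp

section tight
variable {V : Type*} [Fintype V] [DecidableEq V]

theorem tight_both {f : Finset V → ℤ} (hf : Sub univ f) {x : V → ℤ}
    (hx : ∀ X, ∑ i ∈ X, x i ≤ f X) {A B : Finset V} (hA : ∑ i ∈ A, x i = f A)
    (hB : ∑ i ∈ B, x i = f B) :
    ∑ i ∈ A ∩ B, x i = f (A ∩ B) ∧ ∑ i ∈ A ∪ B, x i = f (A ∪ B) := by
  have h1 := hf A B (subset_univ _) (subset_univ _)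
  have h2 := hx (A ∩ B)
  have h3 := hx (A ∪ B)
  have h4 := sum_union_inter (s₁ := A) (s₂ := B) (f := x)
  constructor <;> linarith

theorem tight_chain {f : Finset V → ℤ} (hf : Sub univ f) (h0 : f ∅ = 0) {x : V → ℤ}
    (hx : ∀ X, ∑ i ∈ X, x i ≤ f X) (hu : ∑ i, x i = f univ)
    (hsep : ∀ i j, i ≠ j → ∃ A, ∑ k ∈ A, x k = f A ∧ ((i ∈ A ∧ j ∉ A) ∨ (j ∈ A ∧ i ∉ A))) :
    ∀ i, ∃ T, ∑ j ∈ T, x j = f T ∧ i ∉ T ∧ ∑ j ∈ insert i T, x j = f (insert i T) := by
  have hD : ∀ i, ∃ D : Finset V, i ∈ D ∧ ∑ k ∈ D, x k = f D ∧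
      ∀ B : Finset V, i ∈ B → ∑ k ∈ B, x k = f B → D ⊆ B := by
    intro i
    obtain ⟨D, hD, hmin⟩ := exists_min_image
      ((univ : Finset (Finset V)).filter (fun A => i ∈ A ∧ ∑ k ∈ A, x k = f A)) card
      ⟨univ, by simp [hu]⟩
    rw [mem_filter] at hD
    refine ⟨D, hD.2.1, hD.2.2, ?_⟩
    intro B hiB hB
    have h1 := (tight_both hf hx hD.2.2 hB).1
    have h2 := hmin (D ∩ B) (by
      rw [mem_filter]; exact ⟨mem_univ _, mem_inter.mpr ⟨hD.2.1, hiB⟩, h1⟩)
    have h3 : D ∩ B = D := eq_of_subset_of_card_le inter_subset_left h2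
    exact inter_eq_left.mp h3
  choose D d1 d2 d3 using hD
  have hun : ∀ s : Finset V, ∑ k ∈ s.biUnion D, x k = f (s.biUnion D) := by
    intro s
    induction s using Finset.induction_on with
    | empty => simp [h0]
    | insert a s _ ih =>
      rw [biUnion_insert]
      exact (tight_both hf hx (d2 a) ih).2
  intro i
  have key : (D i).erase i = ((D i).erase i).biUnion D := by
    apply Subset.antisymm
    · intro j hj
      exact mem_biUnion.mpr ⟨j, hj, d1 j⟩
    · intro k hk
      obtain ⟨j, hj, hkj⟩ := mem_biUnion.mp hk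
      rw [mem_erase] at hj
      have h1 : D j ⊆ D i := d3 j (D i) hj.2 (d2 i)
      rw [mem_erase]
      refine ⟨?_, h1 hkj⟩
      rintro rfl
      obtain ⟨A, hA, h | h⟩ := hsep k j (Ne.symm hj.1)
      · exact h.2 (d3 k A h.1 hA hj.2)
      · exact h.2 (d3 j A h.1 hA hkj)
  refine ⟨(D i).erase i, ?_, notMem_erase i _, ?_⟩
  · rw [key]; exact hun _
  · rw [insert_erase (d1 i)]; exact d2 i

end tight

section lift
variable {S : Type*} [Fintype S] [DecidableEq S]

theorem lft_pt {v : Option S → ℤ} (hv : ∑ i, v i = 0) :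
    lft (pt (fun i => v (some i))) = fun o => (v o : ℝ) := by
  funext o
  cases o with
  | none =>
    rw [Fintype.sum_option] at hv
    have : (v none : ℝ) = - ∑ i, (v (some i) : ℝ) := by
      have h' : v none = - ∑ i, v (some i) := by linarith
      rw [h']; push_cast; rfl
    simp [lft, pt, this]
  | some i => rfl

theorem mem_pt {p b : Finset S → ℤ} {v : Option S → ℤ} (hv : ∑ i, v i = 0)
    (hle : ∀ X, ∑ i ∈ X, v i ≤ lf p b X) : pt (fun i => v (some i)) ∈ GQ p b := by
  rw [mem_GQ, lft_pt hv]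
  intro X
  have := hle X
  show ∑ i ∈ X, (v i : ℝ) ≤ _
  exact_mod_cast this

theorem supp_eq {p b : Finset S → ℤ} (h : Paired p b) {w : Option S → ℕ} {N : ℕ}
    (hw : ∀ i, w i ≤ N) :
    supp (GQ p b) (fun i => (w (some i) : ℤ) - w none) = (H (lf p b) w N : ℝ) := by
  have lin : ∀ y : S → ℝ, ∑ i, (((w (some i) : ℤ) - (w none : ℤ) : ℤ) : ℝ) * y i =
      ∑ k ∈ range N, ∑ i ∈ L w (k + 1), lft y i := by
    intro y
    rw [← sum_mul_eq (lft y) hw, Fintype.sum_option]
    simp only [lft, Option.elim]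
    push_cast
    simp only [sub_mul, sum_sub_distrib, ← mul_sum]
    ring
  apply IsGreatest.csSup_eq
  constructor
  · obtain ⟨v, hv1, hv2, hv3⟩ := exists_face (lf_sub h) (lf_empty h) (lf_univ h) hw
    refine ⟨pt (fun i => v (some i)), mem_pt hv2 hv1, ?_⟩
    show ∑ i, (((w (some i) : ℤ) - (w none : ℤ) : ℤ) : ℝ) * _ = _
    rw [lin, lft_pt hv2]
    simp only [H]
    push_cast
    apply sum_congr rfl
    intro k _
    rw [← hv3 (k + 1)]
    push_cast; rfl
  · rintro _ ⟨y, hy, rfl⟩
    show ∑ i, (((w (some i) : ℤ) - (w none : ℤ) : ℤ) : ℝ) * y i ≤ _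
    rw [lin]
    simp only [H]
    push_cast
    apply sum_le_sum
    intro k _
    exact mem_GQ.mp hy _

/-- lifting an integer direction -/
def up (w : S → ℤ) : Option S → ℕ := fun o =>
  o.elim (∑ i, (w i).natAbs) (fun i => (w i + ((∑ i, (w i).natAbs : ℕ) : ℤ)).toNat)

theorem up_some (w : S → ℤ) (i : S) :
    ((up w (some i) : ℕ) : ℤ) = w i + ((∑ i, (w i).natAbs : ℕ) : ℤ) := by
  have h1 : (w i).natAbs ≤ ∑ i, (w i).natAbs :=
    single_le_sum (f := fun i => (w i).natAbs) (fun _ _ => Nat.zero_le _) (mem_univ i)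
  simp only [up, Option.elim]
  omega

theorem up_none (w : S → ℤ) : up w none = ∑ i, (w i).natAbs := rfl

theorem up_sub (w : S → ℤ) : (fun i => ((up w (some i) : ℕ) : ℤ) - (up w none : ℕ)) = w := by
  funext i; rw [up_some, up_none]; ring

/-- a bound for a natural vector -/
def bd {V : Type*} [Fintype V] (w : V → ℕ) : ℕ := ∑ i, w i

theorem le_bd {V : Type*} [Fintype V] (w : V → ℕ) (i : V) : w i ≤ bd w :=
  single_le_sum (f := w) (fun _ _ => Nat.zero_le _) (mem_univ i)

theorem supp_up {p b : Finset S → ℤ} (h : Paired p b) (w : S → ℤ) :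
    supp (GQ p b) w = (H (lf p b) (up w) (bd (up w)) : ℝ) := by
  have := supp_eq h (w := up w) (N := bd (up w)) (le_bd _)
  rwa [up_sub] at this

/-- (1) the face in a shortest direction contains an integral `x` with `-x ∈ Q`. -/
theorem part1 {p b : Finset S → ℤ} (h : Paired p b) (w : S → ℤ) (hw : Shortest (GQ p b) w) :
    ∃ v : Option S → ℤ, ∑ i, v i = 0 ∧ (∀ X, ∑ i ∈ X, v i ≤ lf p b X ∧ - ∑ i ∈ X, v i ≤ lf p b X) ∧
      ∑ i, (w i : ℝ) * (v (some i) : ℝ) = supp (GQ p b) w := by
  obtain ⟨v, hv1, hv2, hv3⟩ := parity (lf_sub h) (lf_empty h) (lf_univ h)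
    (w := up w) (N := bd (up w)) (le_bd _)
    (by
      intro A
      have h1 := supp_up h w
      have h2 := supp_eq h (w := bump (bump (up w) A) A) (N := bd (up w) + 2)
        (fun i => bump_le (fun j => bump_le (le_bd (up w)) A j) A i)
      have h3 := hw (fun i => (if some i ∈ A then 1 else 0) - (if none ∈ A then 1 else 0))
      have h4 : (fun i => w i + 2 * ((if some i ∈ A then (1:ℤ) else 0) -
          (if (none : Option S) ∈ A then 1 else 0))) =
          (fun i => ((bump (bump (up w) A) A (some i) : ℕ) : ℤ) -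
            (bump (bump (up w) A) A none : ℕ)) := by
        funext i
        have := congrFun (up_sub w) i
        simp only [bump]
        push_cast
        rw [← this]
        split_ifs <;> ring
      rw [h4, h2, h1] at h3
      exact_mod_cast h3)
  refine ⟨v, hv2, hv1, ?_⟩
  rw [supp_up h w]
  have lin : ∑ i, (w i : ℝ) * (v (some i) : ℝ) =
      ∑ k ∈ range (bd (up w)), ∑ i ∈ L (up w) (k + 1), (v i : ℝ) := by
    rw [← sum_mul_eq (fun o => (v o : ℝ)) (le_bd (up w)), Fintype.sum_option]
    have e1 : ∀ i, ((up w (some i) : ℕ) : ℝ) = (w i : ℝ) + ((up w none : ℕ) : ℝ) := by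
      intro i
      have := congrFun (up_sub w) i
      have h' : ((up w (some i) : ℕ) : ℤ) = w i + (up w none : ℕ) := by linarith
      exact_mod_cast h'
    have e2 : (v none : ℝ) = - ∑ i, (v (some i) : ℝ) := by
      rw [Fintype.sum_option] at hv2
      have h' : v none = - ∑ i, v (some i) := by linarith
      rw [h']; push_cast; rfl
    simp only [e1, e2, add_mul, sum_add_distrib, ← mul_sum]
    ring
  rw [lin]
  simp only [H]
  push_cast
  apply sum_congr rfl
  intro k _
  rw [← hv3 (k + 1)]
  push_cast; rfl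

theorem lf_nonneg {p b : Finset S → ℤ} (h0 : (0 : S → ℝ) ∈ GQ p b) (X : Finset (Option S)) :
    0 ≤ lf p b X := by
  have h1 := (mem_GQ.mp h0) X
  have h2 : ∑ i ∈ X, lft (0 : S → ℝ) i = 0 := by
    apply sum_eq_zero
    intro o _
    cases o with
    | none => simp [lft]
    | some i => rfl
  rw [h2] at h1
  exact_mod_cast h1

/-- (2) every class modulo 2 has a shortest vector. -/
theorem part2 {p b : Finset S → ℤ} (h : Paired p b) (h0 : (0 : S → ℝ) ∈ GQ p b) (C : Set S) :
    ∃ w : S → ℤ, (∀ i, Odd (w i) ↔ i ∈ C) ∧ Shortest (GQ p b) w := by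
  classical
  have hH : ∀ w : S → ℤ, 0 ≤ H (lf p b) (up w) (bd (up w)) := fun w =>
    sum_nonneg (fun k _ => lf_nonneg h0 _)
  obtain ⟨w, hw, hmin⟩ := WellFounded.has_min
    (measure (fun w : S → ℤ => (H (lf p b) (up w) (bd (up w))).toNat)).wf
    {w : S → ℤ | ∀ i, Odd (w i) ↔ i ∈ C}
    ⟨fun i => if i ∈ C then 1 else 0, by
      intro i
      by_cases hi : i ∈ C <;> simp [hi]⟩
  refine ⟨w, hw, ?_⟩
  intro u
  have h1 : (fun i => w i + 2 * u i) ∈ {w : S → ℤ | ∀ i, Odd (w i) ↔ i ∈ C} := by
    intro i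
    rw [← hw i]
    constructor
    · intro ho
      have := ho.sub_even (even_two_mul (u i))
      simpa using this
    · intro ho; exact ho.add_even (even_two_mul (u i))
  have h2 : ¬ ((H (lf p b) (up (fun i => w i + 2 * u i))
      (bd (up (fun i => w i + 2 * u i)))).toNat < (H (lf p b) (up w) (bd (up w))).toNat) :=
    hmin _ h1
  rw [supp_up h w, supp_up h]
  have a := hH w
  have b' := hH (fun i => w i + 2 * u i)
  have : H (lf p b) (up w) (bd (up w)) ≤
      H (lf p b) (up (fun i => w i + 2 * u i)) (bd (up (fun i => w i + 2 * u i))) := by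
    simp only [not_lt] at h2
    omega
  exact_mod_cast this

theorem le_supp {p b : Finset S → ℤ} (h : Paired p b) (w : S → ℤ) {y : S → ℝ}
    (hy : y ∈ GQ p b) : ∑ i, (w i : ℝ) * y i ≤ supp (GQ p b) w := by
  apply le_csSup
  · refine ⟨(H (lf p b) (up w) (bd (up w)) : ℝ), ?_⟩
    have e := up_sub w
    rintro _ ⟨z, hz, rfl⟩
    show ∑ i, (w i : ℝ) * z i ≤ _
    have lin : ∑ i, (w i : ℝ) * z i =
        ∑ k ∈ range (bd (up w)), ∑ i ∈ L (up w) (k + 1), lft z i := by
      rw [← sum_mul_eq (lft z) (le_bd (up w)), Fintype.sum_option]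
      have e1 : ∀ i, ((up w (some i) : ℕ) : ℝ) = (w i : ℝ) + ((up w none : ℕ) : ℝ) := by
        intro i
        have := congrFun (up_sub w) i
        have h' : ((up w (some i) : ℕ) : ℤ) = w i + (up w none : ℕ) := by linarith
        exact_mod_cast h'
      simp only [lft, Option.elim, e1, add_mul, sum_add_distrib, ← mul_sum]
      ring
    rw [lin]
    simp only [H]
    push_cast
    apply sum_le_sum
    intro k _
    exact mem_GQ.mp hz _
  · exact ⟨y, hy, rfl⟩

theorem part1' {p b : Finset S → ℤ} (h : Paired p b) (w : S → ℤ) (hw : Shortest (GQ p b) w) :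
    ∃ x : S → ℤ, pt x ∈ GQ p b ∧ - pt x ∈ GQ p b ∧
      ∑ i, (w i : ℝ) * (x i : ℝ) = supp (GQ p b) w := by
  obtain ⟨v, hv1, hv2, hv3⟩ := part1 h w hw
  refine ⟨fun i => v (some i), mem_pt hv1 (fun X => (hv2 X).1), ?_, hv3⟩
  have h1 : ∑ i, (fun o => - v o) i = 0 := by
    simp only [sum_neg_distrib, hv1, neg_zero]
  have h2 := mem_pt (p := p) (b := b) (v := fun o => - v o) h1
    (fun X => by simp only [sum_neg_distrib]; exact (hv2 X).2)
  have h3 : - pt (fun i => v (some i)) = pt (fun i => - v (some i)) := by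
    funext i; simp [pt]
  rw [h3]; exact h2

theorem no_swap {p b : Finset S → ℤ} (h : Paired p b) (w : S → ℤ) {x : S → ℤ}
    (hx : ∑ i, (w i : ℝ) * (x i : ℝ) = supp (GQ p b) w) {i j : S} (hij : w i ≠ w j) :
    ¬ Swap (GQ p b) (pt x) i j := by
  rintro ⟨h1, h2⟩
  have a1 := le_supp h w h1
  have a2 := le_supp h w h2
  rw [← hx] at a1 a2
  have e1 : ∑ k, (w k : ℝ) * (pt x + Pi.single i 1 - Pi.single j 1 : S → ℝ) k =
      ∑ k, (w k : ℝ) * (x k : ℝ) + w i - w j := by
    simp only [Pi.add_apply, Pi.sub_apply, pt, mul_add, mul_sub, sum_add_distrib,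
      sum_sub_distrib, Pi.single_apply, mul_ite, mul_one, mul_zero, sum_ite_eq', mem_univ,
      if_true]
  have e2 : ∑ k, (w k : ℝ) * (pt x - Pi.single i 1 + Pi.single j 1 : S → ℝ) k =
      ∑ k, (w k : ℝ) * (x k : ℝ) - w i + w j := by
    simp only [Pi.add_apply, Pi.sub_apply, pt, mul_add, mul_sub, sum_add_distrib,
      sum_sub_distrib, Pi.single_apply, mul_ite, mul_one, mul_zero, sum_ite_eq', mem_univ,
      if_true]
  rw [e1] at a1
  rw [e2] at a2
  apply hij
  have : (w i : ℝ) = w j := by linarith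
  exact_mod_cast this

theorem no_free {p b : Finset S → ℤ} (h : Paired p b) (w : S → ℤ) {x : S → ℤ}
    (hx : ∑ i, (w i : ℝ) * (x i : ℝ) = supp (GQ p b) w) {i : S} (hi : w i ≠ 0) :
    ¬ Free (GQ p b) (pt x) i := by
  rintro ⟨h1, h2⟩
  have a1 := le_supp h w h1
  have a2 := le_supp h w h2
  rw [← hx] at a1 a2
  have e1 : ∑ k, (w k : ℝ) * (pt x + Pi.single i 1 : S → ℝ) k =
      ∑ k, (w k : ℝ) * (x k : ℝ) + w i := by
    simp only [Pi.add_apply, pt, mul_add, sum_add_distrib,
      Pi.single_apply, mul_ite, mul_one, mul_zero, sum_ite_eq', mem_univ, if_true]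
  have e2 : ∑ k, (w k : ℝ) * (pt x - Pi.single i 1 : S → ℝ) k =
      ∑ k, (w k : ℝ) * (x k : ℝ) - w i := by
    simp only [Pi.sub_apply, pt, mul_sub,
      sum_sub_distrib, Pi.single_apply, mul_ite, mul_one, mul_zero, sum_ite_eq', mem_univ,
      if_true]
  rw [e1] at a1
  rw [e2] at a2
  apply hi
  have : (w i : ℝ) = 0 := by linarith
  exact_mod_cast this

/-- (3) two-coloured exchanges can be excluded. -/
theorem part3 {p b : Finset S → ℤ} (h : Paired p b) (h0 : (0 : S → ℝ) ∈ GQ p b) (C : Set S) :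
    ∃ x : S → ℤ, pt x ∈ GQ p b ∧ - pt x ∈ GQ p b ∧
      (∀ i ∈ C, ¬ Free (GQ p b) (pt x) i) ∧
      ∀ i ∈ C, ∀ j ∉ C, ¬ Swap (GQ p b) (pt x) i j := by
  obtain ⟨w, hw, hs⟩ := part2 h h0 C
  obtain ⟨x, hx1, hx2, hx3⟩ := part1' h w hs
  refine ⟨x, hx1, hx2, ?_, ?_⟩
  · intro i hi
    apply no_free h w hx3
    intro e
    have := (hw i).mpr hi
    rw [e] at this
    exact absurd this (by decide)
  · intro i hi j hj
    apply no_swap h w hx3
    intro e
    exact hj ((hw j).mp (e ▸ (hw i).mpr hi))

/-- a point without exchanges is a vertex -/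
theorem extreme_of_no_exchange {p b : Finset S → ℤ} (h : Paired p b) {x : S → ℤ}
    (hx : pt x ∈ GQ p b) (hf : ∀ i, ¬ Free (GQ p b) (pt x) i)
    (hs : ∀ i j, i ≠ j → ¬ Swap (GQ p b) (pt x) i j) :
    pt x ∈ (GQ p b).extremePoints ℝ := by
  classical
  -- the lifted vector
  set v : Option S → ℤ := fun o => o.elim (- ∑ i, x i) x with hv
  have hv0 : ∑ i, v i = 0 := by rw [Fintype.sum_option]; simp [hv]
  have hvx : pt x = pt (fun i => v (some i)) := rfl
  have hle : ∀ X, ∑ i ∈ X, v i ≤ lf p b X := by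
    intro X
    have := (mem_GQ.mp hx) X
    rw [hvx, lft_pt hv0] at this
    have h' : ∑ i ∈ X, (v i : ℝ) ≤ (lf p b X : ℝ) := this
    exact_mod_cast h'
  -- if no tight set separates a, c, then the exchange is possible
  have exch : ∀ a c : Option S, a ≠ c →
      (¬ ∃ A, ∑ k ∈ A, v k = lf p b A ∧ ((a ∈ A ∧ c ∉ A) ∨ (c ∈ A ∧ a ∉ A))) →
      ∀ X, ∑ k ∈ X, (v k + (if k = a then 1 else 0) - (if k = c then 1 else 0)) ≤ lf p b X := by
    intro a c _ hno X
    rw [sum_sub_distrib, sum_add_distrib, sum_ite_eq', sum_ite_eq']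
    have h1 := hle X
    by_cases ha : a ∈ X <;> by_cases hc : c ∈ X
    · simp only [ha, hc, if_true]; linarith
    · have : ∑ k ∈ X, v k ≠ lf p b X := fun e => hno ⟨X, e, Or.inl ⟨ha, hc⟩⟩
      simp only [ha, hc, if_true, if_false]
      omega
    · simp only [ha, hc, if_true, if_false]; omega
    · simp only [ha, hc, if_false]; linarith
  have sum0 : ∀ a c : Option S,
      ∑ k, (v k + (if k = a then 1 else 0) - (if k = c then 1 else 0)) = 0 := by
    intro a c
    rw [sum_sub_distrib, sum_add_distrib, sum_ite_eq', sum_ite_eq']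
    simp [hv0]
  have hsep : ∀ a c : Option S, a ≠ c →
      ∃ A, ∑ k ∈ A, v k = lf p b A ∧ ((a ∈ A ∧ c ∉ A) ∨ (c ∈ A ∧ a ∉ A)) := by
    intro a c hac
    by_contra hno
    have hno' : ¬ ∃ A, ∑ k ∈ A, v k = lf p b A ∧ ((c ∈ A ∧ a ∉ A) ∨ (a ∈ A ∧ c ∉ A)) := by
      rintro ⟨A, hA, hA'⟩; exact hno ⟨A, hA, hA'.symm⟩
    have m1 := mem_pt (sum0 a c) (exch a c hac hno)
    have m2 := mem_pt (sum0 c a) (exch c a hac.symm hno')
    cases a with
    | none =>
      cases c with
      | none => exact hac rfl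
      | some j =>
        apply hf j
        constructor
        · have : pt x + Pi.single j 1 = pt (fun i => v (some i) +
            (if some i = some j then 1 else 0) - (if some i = none then 1 else 0)) := by
            funext i
            simp only [pt, Pi.add_apply, Pi.single_apply, Option.some.injEq, reduceCtorEq,
              if_false, hv, Option.elim]
            split_ifs <;> push_cast <;> ring
          rw [this]; exact m2
        · have : pt x - Pi.single j 1 = pt (fun i => v (some i) +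
            (if some i = none then 1 else 0) - (if some i = some j then 1 else 0)) := by
            funext i
            simp only [pt, Pi.sub_apply, Pi.single_apply, Option.some.injEq, reduceCtorEq,
              if_false, hv, Option.elim]
            split_ifs <;> push_cast <;> ring
          rw [this]; exact m1
    | some i0 =>
      cases c with
      | none =>
        apply hf i0
        constructor
        · have : pt x + Pi.single i0 1 = pt (fun i => v (some i) +
            (if some i = some i0 then 1 else 0) - (if some i = none then 1 else 0)) := by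
            funext i
            simp only [pt, Pi.add_apply, Pi.single_apply, Option.some.injEq, reduceCtorEq,
              if_false, hv, Option.elim]
            split_ifs <;> push_cast <;> ring
          rw [this]; exact m1
        · have : pt x - Pi.single i0 1 = pt (fun i => v (some i) +
            (if some i = none then 1 else 0) - (if some i = some i0 then 1 else 0)) := by
            funext i
            simp only [pt, Pi.sub_apply, Pi.single_apply, Option.some.injEq, reduceCtorEq,
              if_false, hv, Option.elim]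
            split_ifs <;> push_cast <;> ring
          rw [this]; exact m2
      | some j =>
        apply hs i0 j (fun e => hac (by rw [e]))
        constructor
        · have : pt x + Pi.single i0 1 - Pi.single j 1 = pt (fun i => v (some i) +
            (if some i = some i0 then 1 else 0) - (if some i = some j then 1 else 0)) := by
            funext i
            simp only [pt, Pi.sub_apply, Pi.add_apply, Pi.single_apply, Option.some.injEq,
              hv, Option.elim]
            split_ifs <;> push_cast <;> ring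
          rw [this]; exact m1
        · have : pt x - Pi.single i0 1 + Pi.single j 1 = pt (fun i => v (some i) +
            (if some i = some j then 1 else 0) - (if some i = some i0 then 1 else 0)) := by
            funext i
            simp only [pt, Pi.sub_apply, Pi.add_apply, Pi.single_apply, Option.some.injEq,
              hv, Option.elim]
            split_ifs <;> push_cast <;> ring
          rw [this]; exact m2
  have := extreme_of_tight v hv0 hle
    (tight_chain (lf_sub h) (lf_empty h) hle (by rw [hv0, lf_univ h]) hsep)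
  exact this

end lift

end Pool.Agent.J4H28.Par
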